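import Pool.Agent.H67.Liou.Final
import Pool.Agent.H67.Liou.CotDefs

/-! Every Liouville manifold (of finite type, convex at infinity) whose core is a smooth closed
Lagrangian submanifold `L` is equivalent, as an exact symplectic manifold, to the cotangent bundle
of `L` with its canonical one-form. -/

open scoped ContDiff Manifold

namespace Pool.Agent.Results.MP_91769e_gt.CotangentModel

open Pool.Agent.H67.Liou

/-- `X` is a smooth Hausdorff manifold without boundary modelled on the real vector space `E` of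
dimension `2n`, and `L` is a compact one modelled on the real vector space `F` of dimension `n`. -/
theorem result
    {E : Type*} [NormedAddCommGroup E] [NormedSpace ℝ E] [FiniteDimensional ℝ E]
    {F : Type*} [NormedAddCommGroup F] [NormedSpace ℝ F] [FiniteDimensional ℝ F]
    (hdim : Module.finrank ℝ E = 2 * Module.finrank ℝ F)
    {X : Type*} [TopologicalSpace X] [T2Space X] [ChartedSpace E X] [IsManifold 𝓘(ℝ, E) ∞ X]
    {L : Type*} [TopologicalSpace L] [T2Space L] [CompactSpace L] [ChartedSpace F L]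
    [IsManifold 𝓘(ℝ, F) ∞ L]
    (lam : (x : X) → TangentSpace 𝓘(ℝ, E) x →L[ℝ] ℝ)
    (Z : (x : X) → TangentSpace 𝓘(ℝ, E) x) (φ : ℝ → X → X) (X₀ : Set X)
    (hX : IsLiouville 𝓘(ℝ, E) lam Z φ X₀)
    (ι : L → X) (hι : IsLagrangianOnto 𝓘(ℝ, F) 𝓘(ℝ, E) lam ι (core φ X₀)) :
    EquivCotangent 𝓘(ℝ, E) lam 𝓘(ℝ, F) L :=
  exactEquiv_cot hdim hX hι

end Pool.Agent.Results.MP_91769e_gt.CotangentModel
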